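import Pool.Agent.Lib.MP_abd978_an.Interfaces

/-!
# Project ABD, module NORM: passing from `(w, 𝒜)` to the measure `w dx` and the normalised operator
-/

set_option autoImplicit false

open MeasureTheory Metric Set Filter Topology ContDiff
open scoped Gradient RealInnerProductSpace

namespace Pool.Agent.Lib.MP_abd978_an.H34

variable {n : ℕ}

/-- the measure of a locally integrable weight is locally finite -/
theorem lf_wm {w : E n → ℝ} (h : LocallyIntegrable w) : IsLocallyFiniteMeasure (wm w) := by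
  refine ⟨fun x => ?_⟩
  obtain ⟨s, hs, hi⟩ := h x
  obtain ⟨t, hts, hto, hxt⟩ := _root_.mem_nhds_iff.1 hs
  refine ⟨t, hto.mem_nhds hxt, ?_⟩
  rw [wm, withDensity_apply _ hto.measurableSet]
  have h1 := (hi.mono_set hts).2
  refine lt_of_le_of_lt (lintegral_mono fun y => ?_) h1
  exact Real.ofReal_le_enorm _

/-- the properties of the operator at one point -/
structure GoodOp (p α β : ℝ) (b : E n → E n) : Prop where
  cont : Continuous b
  ell : ∀ ξ, α * ‖ξ‖ ^ p ≤ ⟪b ξ, ξ⟫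
  bdd : ∀ ξ, ‖b ξ‖ ≤ β * ‖ξ‖ ^ (p - 1)
  mono : ∀ ξ η, ξ ≠ η → 0 < ⟪b ξ - b η, ξ - η⟫
  hom : ∀ (l : ℝ) ξ, 0 < l → b (l • ξ) = l ^ (p - 1) • b ξ
  neg : ∀ ξ, b (-ξ) = -b ξ

theorem goodOp_of {p α β c : ℝ} {B : E n → E n} (hc : 0 < c) (h1 : Continuous B)
    (h2 : ∀ ξ, α * c * ‖ξ‖ ^ p ≤ ⟪B ξ, ξ⟫) (h3 : ∀ ξ, ‖B ξ‖ ≤ β * c * ‖ξ‖ ^ (p - 1))
    (h4 : ∀ ξ η, ξ ≠ η → 0 < ⟪B ξ - B η, ξ - η⟫)
    (h5 : ∀ (l : ℝ) (ξ : E n), l ≠ 0 → B (l • ξ) = (l * |l| ^ (p - 2)) • B ξ) :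
    GoodOp p α β fun ξ => c⁻¹ • B ξ := by
  have h0 : Continuous fun ξ => c⁻¹ • B ξ := by fun_prop
  refine ⟨h0, fun ξ => ?_, fun ξ => ?_, fun ξ η hne => ?_, fun l ξ hl => ?_,
    fun ξ => ?_⟩
  · rw [real_inner_smul_left, inv_mul_eq_div, le_div_iff₀ hc]
    calc α * ‖ξ‖ ^ p * c = α * c * ‖ξ‖ ^ p := by ring
      _ ≤ _ := h2 ξ
  · rw [norm_smul, Real.norm_of_nonneg (inv_nonneg.2 hc.le), inv_mul_eq_div, div_le_iff₀ hc]
    calc ‖B ξ‖ ≤ β * c * ‖ξ‖ ^ (p - 1) := h3 ξ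
      _ = _ := by ring
  · rw [← smul_sub, real_inner_smul_left]
    exact mul_pos (inv_pos.2 hc) (h4 ξ η hne)
  · show c⁻¹ • B (l • ξ) = l ^ (p - 1) • c⁻¹ • B ξ
    rw [h5 l ξ hl.ne', abs_of_pos hl, smul_comm]
    congr 1
    congr 1
    have : l ^ (p - 1) = l ^ (1 + (p - 2)) := by congr 1; ring
    rw [this, Real.rpow_add hl, Real.rpow_one]
  · show c⁻¹ • B (-ξ) = -(c⁻¹ • B ξ)
    have := h5 (-1) ξ (by norm_num)
    rw [neg_one_smul, abs_neg, abs_one, Real.one_rpow, mul_one, neg_one_smul] at this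
    rw [this, smul_neg]

/-- the normalised operator -/
theorem exists_op {p α β : ℝ} {w : E n → ℝ} {A : E n → E n → E n} (hw : AEMeasurable w)
    (hpos : ∀ᵐ x : E n, 0 < w x) (hA : Structure p w α β A) :
    ∃ a : E n → E n → E n, (Measurable fun q : E n × E n => a q.1 q.2) ∧
      (∀ x, GoodOp p α β (a x)) ∧ ∀ᵐ x : E n, ∀ ξ, A x ξ = w x • a x ξ := by
  classical
  have hmk : ∀ k : ℕ, (fun x => A x (TopologicalSpace.denseSeq (E n) k)) =ᵐ[volume]
      (hA.meas (TopologicalSpace.denseSeq (E n) k)).mk _ := fun k => (hA.meas _).ae_eq_mk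
  obtain ⟨good, hgooddef⟩ : ∃ good : E n → Prop, ∀ x, good x ↔ (w x = hw.mk w x ∧ 0 < w x ∧
      GoodOp p α β (fun ξ => (w x)⁻¹ • A x ξ) ∧
      ∀ k : ℕ, A x (TopologicalSpace.denseSeq (E n) k) =
        (hA.meas (TopologicalSpace.denseSeq (E n) k)).mk _ x) := ⟨_, fun x => Iff.rfl⟩
  have hgood : ∀ᵐ x : E n, good x := by
    filter_upwards [hw.ae_eq_mk, hpos, hA.cont, hA.ell, hA.bdd, hA.mono, hA.hom,
      ae_all_iff.2 hmk] with x h1 h2 h3 h4 h5 h6 h7 h8
    exact (hgooddef x).2 ⟨h1, h2, goodOp_of h2 h3 h4 h5 h6 h7, h8⟩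
  set N : Set (E n) := toMeasurable volume {x | ¬ good x} with hNdef
  have hNm : MeasurableSet N := measurableSet_toMeasurable _ _
  have hN0 : volume N = 0 := by
    rw [hNdef, measure_toMeasurable]
    exact ae_iff.1 hgood
  have hNg : ∀ x, x ∉ N → good x := by
    intro x hx
    by_contra hcon
    exact hx (subset_toMeasurable _ _ hcon)
  have hNae : ∀ᵐ x : E n, x ∉ N := by
    rw [ae_iff]
    simpa using hN0
  obtain ⟨x0, hx0⟩ := hNae.exists
  have hg0 := (hgooddef x0).1 (hNg x0 hx0)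
  let a : E n → E n → E n := fun x ξ => if x ∈ N then (w x0)⁻¹ • A x0 ξ else (w x)⁻¹ • A x ξ
  have hain : ∀ x ∈ N, a x = fun ξ => (w x0)⁻¹ • A x0 ξ := by
    intro x hx
    funext ξ
    exact if_pos hx
  have haout : ∀ x, x ∉ N → a x = fun ξ => (w x)⁻¹ • A x ξ := by
    intro x hx
    funext ξ
    exact if_neg hx
  have hop : ∀ x, GoodOp p α β (a x) := by
    intro x
    by_cases hx : x ∈ N
    · rw [hain x hx]
      exact hg0.2.2.1
    · rw [haout x hx]
      exact ((hgooddef x).1 (hNg x hx)).2.2.1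
  have hm1 : ∀ k : ℕ, Measurable fun x => a x (TopologicalSpace.denseSeq (E n) k) := by
    intro k
    have h1 : (fun x => a x (TopologicalSpace.denseSeq (E n) k)) = fun x =>
        if x ∈ N then (w x0)⁻¹ • A x0 (TopologicalSpace.denseSeq (E n) k) else
          (hw.mk w x)⁻¹ • (hA.meas (TopologicalSpace.denseSeq (E n) k)).mk _ x := by
      funext x
      by_cases hx : x ∈ N
      · rw [hain x hx, if_pos hx]
      · rw [haout x hx, if_neg hx]
        have h2 := (hgooddef x).1 (hNg x hx)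
        show (w x)⁻¹ • A x (TopologicalSpace.denseSeq (E n) k) = _
        rw [h2.1, h2.2.2.2 k]
    rw [h1]
    exact Measurable.ite hNm measurable_const
      ((hw.measurable_mk.inv).smul (hA.meas (TopologicalSpace.denseSeq (E n) k)).measurable_mk)
  have hm2 : ∀ ξ, Measurable fun x => a x ξ := by
    intro ξ
    have h1 : ξ ∈ closure (range (TopologicalSpace.denseSeq (E n))) :=
      TopologicalSpace.denseRange_denseSeq (E n) ξ
    obtain ⟨s, hs, hlim⟩ := mem_closure_iff_seq_limit.1 h1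
    refine measurable_of_tendsto_metrizable (f := fun i x => a x (s i)) (fun i => ?_) ?_
    · obtain ⟨k, hk⟩ := hs i
      rw [← hk]
      exact hm1 k
    · rw [tendsto_pi_nhds]
      intro x
      exact ((hop x).cont.tendsto ξ).comp hlim
  refine ⟨a, ?_, hop, ?_⟩
  · have h1 : Measurable (Function.uncurry fun (ξ x : E n) => a x ξ) :=
      measurable_uncurry_of_continuous_of_measurable (fun x => (hop x).cont) hm2
    exact h1.comp measurable_swap
  · filter_upwards [hNae] with x hx ξ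
    rw [haout x hx]
    have h2 := ((hgooddef x).1 (hNg x hx)).2.1
    show A x ξ = w x • (w x)⁻¹ • A x ξ
    rw [smul_inv_smul₀ h2.ne']

theorem average_nonneg {μ : Measure (E n)} {f : E n → ℝ} (hf : ∀ x, 0 ≤ f x) (s : Set (E n)) :
    0 ≤ ⨍ x in s, f x ∂μ := by
  rw [average]
  exact integral_nonneg hf

theorem geo_of {p : ℝ} {w : E n → ℝ} (hp : 1 < p) (h : Admissible p w) : Geo p (wm w) := by
  have := lf_wm h.locInt
  have hwm : AEMeasurable w := h.locInt.aestronglyMeasurable.aemeasurable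
  refine ⟨hp, lf_wm h.locInt, ?_, ?_, ?_, ?_⟩
  · intro z r hr
    have h1 : wm w (ball z r) ≠ ⊤ := measure_ball_lt_top.ne
    have h2 : (volume : Measure (E n)) ≪ wm w := by
      refine withDensity_absolutelyContinuous' hwm.ennreal_ofReal ?_
      filter_upwards [h.pos] with x hx
      simpa using hx
    have h3 : wm w (ball z r) ≠ 0 := fun h0 => (measure_ball_pos volume z hr).ne' (h2 h0)
    exact ENNReal.toReal_pos h3 h1
  · obtain ⟨C, hC⟩ := h.doubling
    refine ⟨max C 1, le_max_right _ _, fun z r hr => (hC z r hr).trans ?_⟩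
    exact mul_le_mul_of_nonneg_right (le_max_left _ _) measureReal_nonneg
  · obtain ⟨κ, hκ, C, hC⟩ := h.sobolev
    refine ⟨κ, hκ, max C 1, by positivity, fun z r hr φ hφ =>
      (hC z r hr φ hφ.1 hφ.2.1 hφ.2.2).trans ?_⟩
    have h1 : 0 ≤ (⨍ y in ball z r, ‖∇ φ y‖ ^ p ∂wm w) ^ (1 / p) :=
      Real.rpow_nonneg (average_nonneg (fun x => by positivity) _) _
    exact mul_le_mul_of_nonneg_right (mul_le_mul_of_nonneg_right (le_max_left _ _) hr.le) h1
  · obtain ⟨C, hC⟩ := h.poincare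
    refine ⟨max C 1, by positivity, fun z r hr φ hφ => (hC z r hr φ hφ).trans ?_⟩
    have h1 : 0 ≤ (⨍ y in ball z r, ‖∇ φ y‖ ^ p ∂wm w) ^ (1 / p) :=
      Real.rpow_nonneg (average_nonneg (fun x => by positivity) _) _
    exact mul_le_mul_of_nonneg_right (mul_le_mul_of_nonneg_right (le_max_left _ _) hr.le) h1

/-- NORM -/
theorem norm : NormStatement := by
  rintro n p w A hp ⟨hadm, α, β, hα, hαβ, hA⟩
  have hwm : AEMeasurable w := hadm.locInt.aestronglyMeasurable.aemeasurable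
  obtain ⟨a, hmeas, hgood, hae⟩ := exists_op hwm hadm.pos hA
  refine ⟨a, α, β, ⟨geo_of hp hadm, hα, hαβ, hmeas, fun x => (hgood x).cont,
    fun x => (hgood x).ell, fun x => (hgood x).bdd, fun x => (hgood x).mono,
    fun x => (hgood x).hom, fun x => (hgood x).neg⟩, ?_⟩
  have key : ∀ (v : E n → E n) (φ : E n → ℝ),
      ∫ x, ⟪a x (v x), ∇ φ x⟫ ∂wm w = ∫ x, ⟪A x (v x), ∇ φ x⟫ := by
    intro v φ
    rw [wm, integral_withDensity_eq_integral_toReal_smul₀ hwm.ennreal_ofReal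
      (Eventually.of_forall fun x => ENNReal.ofReal_lt_top)]
    refine integral_congr_ae ?_
    filter_upwards [hae, hadm.pos] with x h1 h2
    rw [h1, real_inner_smul_left, ENNReal.toReal_ofReal h2.le, smul_eq_mul]
  intro U u
  constructor
  · rintro ⟨h1, v, h2, h3⟩
    refine ⟨h1, v, h2, fun φ hφ => ?_⟩
    rw [key]
    exact h3 φ hφ.1 hφ.2.1 hφ.2.2
  · rintro ⟨h1, v, h2, h3⟩
    refine ⟨h1, v, h2, fun φ hφ1 hφ2 hφ3 => ?_⟩
    rw [← key]
    exact h3 φ ⟨hφ1, hφ2, hφ3⟩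

end Pool.Agent.Lib.MP_abd978_an.H34
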